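import Mathlib
import Pool.Agent.Lib.P9700c.FinC

/-!
# Products of two subgroups of finite special rank in linear groups of characteristic zero

Let `G` be a linear group over a field of characteristic zero and `G = A B` with subgroups `A`, `B` of finite special
rank. Then `G` has finite special rank, and a soluble subgroup of finite index.
-/

set_option autoImplicit false

namespace Pool.Agent.Results.MP_9700b3_al.LinearCharZero

open P9700a

/-- Let `F` be a field of characteristic zero, `G` a group with a faithful representation `ρ : G → GL_n(F)`, and `A`, `B`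
subgroups of `G` of finite special rank such that `G = A B`. Then `G` has finite special rank, and a soluble subgroup
of finite index. -/
theorem result {F : Type*} [Field F] [CharZero F] {n : ℕ} {G : Type*} [Group G]
    (ρ : G →* Matrix.GeneralLinearGroup (Fin n) F) (hρ : Function.Injective ρ)
    (A B : Subgroup G)
    (hA : ∃ r : ℕ, ∀ K : Subgroup G, K ≤ A → K.FG →
      ∃ s : Finset G, s.card ≤ r ∧ Subgroup.closure (s : Set G) = K)
    (hB : ∃ r : ℕ, ∀ K : Subgroup G, K ≤ B → K.FG →
      ∃ s : Finset G, s.card ≤ r ∧ Subgroup.closure (s : Set G) = K)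
    (hAB : ∀ g : G, ∃ a ∈ A, ∃ b ∈ B, g = a * b) :
    (∃ r : ℕ, ∀ K : Subgroup G, K.FG →
      ∃ s : Finset G, s.card ≤ r ∧ Subgroup.closure (s : Set G) = K) ∧
      ∃ Y : Subgroup G, Y.FiniteIndex ∧ Group.IsSolvable Y := by
  let E := AlgebraicClosure F
  let ε : G →* Matrix.GeneralLinearGroup (Fin n) E :=
    (Matrix.GeneralLinearGroup.map (algebraMap F E)).comp ρ
  have hε : Function.Injective ε := by
    intro x y h
    refine hρ (Units.ext ?_)
    have h1 := congrArg (fun z : Matrix.GeneralLinearGroup (Fin n) E =>
      (z : Matrix (Fin n) (Fin n) E)) h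
    ext i j
    have h2 := congrFun (congrFun h1 i) j
    exact (algebraMap F E).injective h2
  let σ : G →* Module.End E (Fin n → E) :=
    ((Matrix.toLinAlgEquiv' : Matrix (Fin n) (Fin n) E ≃ₐ[E] _) : _ →* _).comp
      ((Units.coeHom (Matrix (Fin n) (Fin n) E)).comp ε)
  have hσ : ∀ g : G, σ g = Matrix.toLin' ((ε g : Matrix (Fin n) (Fin n) E)) := fun g => rfl
  have hσi : Function.Injective σ := by
    intro x y h
    rw [hσ, hσ] at h
    exact hε (Units.ext (Matrix.toLin'.injective h))
  exact main_plat E G (Fin n → E) σ hσi A B ((fr_iff A).mpr hA) ((fr_iff B).mpr hB) hAB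

end Pool.Agent.Results.MP_9700b3_al.LinearCharZero
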