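import Mathlib
import Pool.Agent.Lib.P9700e.Fin
import Pool.Agent.Lib.P9700t.RedPi

/-!
# Products of two subgroups of finite special rank in residually finite groups

Let `π` be a finite set of primes and `G` a group with a subgroup `G₀` of finite index, each nontrivial element of which
lies outside a normal subgroup `N` of finite index in `G₀` such that the subgroups of `G₀ / N` of order prime to `π` are
soluble. If `G = A B` with subgroups `A`, `B` of finite special rank, then `G` has finite special rank.

`π = ∅`: all virtually residually (finite soluble) groups. `π = {2}`: by the odd order theorem of Feit and Thompson (not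
used here) every residually finite group satisfies the hypothesis.
-/

set_option autoImplicit false

universe u

namespace Pool.Agent.Results.MP_9700b3_al.ResiduallyFinite

open P9700a

/-- Let `π` be a finite set of primes, `G` a group and `G₀` a subgroup of finite index in `G` such that every `g ≠ 1` in `G₀`
lies outside some normal subgroup `N` of finite index in `G₀` for which every subgroup of `G₀ / N` whose order is divisible
by no prime in `π` is soluble. Let `A`, `B` be subgroups of `G` of finite special rank such that `G = A B`. Then `G` has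
finite special rank. -/
theorem result (π : Finset ℕ) (hπ : ∀ p ∈ π, p.Prime) {G : Type u} [Group G] (G₀ : Subgroup G)
    (hfi : G₀.FiniteIndex)
    (hres : ∀ g : G₀, g ≠ 1 → ∃ (N : Subgroup G₀) (_ : N.Normal), N.FiniteIndex ∧ g ∉ N ∧
      ∀ H : Subgroup (G₀ ⧸ N), (∀ p ∈ π, ¬ p ∣ Nat.card H) → Group.IsSolvable H)
    (A B : Subgroup G)
    (hA : ∃ r : ℕ, ∀ K : Subgroup G, K ≤ A → K.FG →
      ∃ s : Finset G, s.card ≤ r ∧ Subgroup.closure (s : Set G) = K)
    (hB : ∃ r : ℕ, ∀ K : Subgroup G, K ≤ B → K.FG →
      ∃ s : Finset G, s.card ≤ r ∧ Subgroup.closure (s : Set G) = K)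
    (hAB : ∀ g : G, ∃ a ∈ A, ∃ b ∈ B, g = a * b) :
    ∃ r : ℕ, ∀ K : Subgroup G, K.FG →
      ∃ s : Finset G, s.card ≤ r ∧ Subgroup.closure (s : Set G) = K := by
  have hA' : FR A := (fr_iff A).mpr hA
  have hB' : FR B := (fr_iff B).mpr hB
  obtain ⟨G₁, _, hG₁, h⟩ := P9700t.red_pi π hπ G₀ hfi hres A B hA' hB' hAB
  refine P9700e.main' G₁ hG₁ (fun g hg => ?_) A B hA' hB' hAB
  obtain ⟨N, hN, h1, h2, h3⟩ := h g hg
  exact ⟨N, hN, h1, h2, h3⟩

end Pool.Agent.Results.MP_9700b3_al.ResiduallyFinite
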