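import Mathlib
import Pool.Agent.Lib.P9700d.Main

/-!
# Products of two subgroups of finite special rank in virtually residually (finite `p`-) groups

Let `p` be a prime, and let `G` be a group with a subgroup of finite index which is residually a finite `p`-group. If
`G = A B` with subgroups `A`, `B` of finite special rank, then `G` has finite special rank, and a soluble subgroup of
finite index.
-/

set_option autoImplicit false

namespace Pool.Agent.Results.MP_9700b3_al.VirtuallyResiduallyP

open P9700a

/-- Let `p` be a prime, `G` a group, `G₀` a subgroup of finite index in `G` such that every `g ≠ 1` in `G₀` lies outside some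
normal subgroup of `G₀` whose index is a power of `p`, and `A`, `B` subgroups of `G` of finite special rank such that
`G = A B`. Then `G` has finite special rank, and a soluble subgroup of finite index. -/
theorem result {p : ℕ} (hp : p.Prime) {G : Type*} [Group G] (G₀ : Subgroup G) (hfi : G₀.FiniteIndex)
    (hres : ∀ g : G₀, g ≠ 1 → ∃ N : Subgroup G₀, N.Normal ∧ (∃ k : ℕ, N.index = p ^ k) ∧ g ∉ N)
    (A B : Subgroup G)
    (hA : ∃ r : ℕ, ∀ K : Subgroup G, K ≤ A → K.FG →
      ∃ s : Finset G, s.card ≤ r ∧ Subgroup.closure (s : Set G) = K)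
    (hB : ∃ r : ℕ, ∀ K : Subgroup G, K ≤ B → K.FG →
      ∃ s : Finset G, s.card ≤ r ∧ Subgroup.closure (s : Set G) = K)
    (hAB : ∀ g : G, ∃ a ∈ A, ∃ b ∈ B, g = a * b) :
    (∃ r : ℕ, ∀ K : Subgroup G, K.FG →
      ∃ s : Finset G, s.card ≤ r ∧ Subgroup.closure (s : Set G) = K) ∧
      ∃ Y : Subgroup G, Y.FiniteIndex ∧ Group.IsSolvable Y := by
  have : Fact p.Prime := ⟨hp⟩
  exact P9700d.main G₀ hfi hres A B ((fr_iff A).mpr hA) ((fr_iff B).mpr hB) hAB

end Pool.Agent.Results.MP_9700b3_al.VirtuallyResiduallyP
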